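import Pool.Agent.N154.TB.DGeo

/-!
The degrees of the curves of genus at least 2 in projective varieties with a map to a complex torus
with hyperbolic fibres and with 2-forms which are positive in the directions of the torus are
bounded by the genus, with respect to every map which contracts the finitely many elliptic curves.
-/

set_option autoImplicit false

open MeasureTheory LinearAlgebra.Projectivization Pool.Agent.W602.GT Pool.Agent.N154.TB
open Pool.Agent.N154.TT (RiemannForm HolToTorus)
open Pool.Agent.N154.GG (projDist)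

/-- Let `X = {F = 0}` be a projective algebraic set (for example a smooth surface), `S = {G = 0}` a
closed subset which contains the points where `X` is not a manifold of dimension `d` and in which
every holomorphic map `ℂ → S` is constant, and `α : X → ℂᵐ / Λ` a holomorphic map to a complex torus
whose fibres are Brody hyperbolic. Assume that the 2-forms of `X` are positive outside `S` in the
directions of the torus (see `TwoForms`; for a surface and `S = ∅` this holds if the canonical
bundle is ample), and that the torus has a Riemann form `H`, or that `X` contains no elliptic curves.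
Then there is a finite set `T` of nonconstant holomorphic maps from elliptic curves to `X` such that

* every nonconstant entire curve in `X` is the composition of a map in `T` with an entire function;
* let `c` be any holomorphic map from `X` to a projective space which is constant on the elliptic
  curves in `T` (if `T` is empty, `c` can be the inclusion of `X`). Then there is a number `A` such
  that for all holomorphic maps `f` from the unit disc to `X` the density `ρ` of `(c ∘ f)^* ω`, where
  `ω` is the Fubini-Study form, is at most `A / (1 - |z| ^ 2) ^ 2`, and `∫ ρ` over every measurable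
  subset of the disc is at most `A` times the integral of `1 / (1 - |z| ^ 2) ^ 2`.
  If `f` is the composition of the universal covering of a compact Riemann surface `C` of genus
  `g ≥ 2` with a holomorphic map `h : C → X`, and the subset is a fundamental domain, then `∫ ρ` is
  `π` times the degree of the pull-back of `O (1)` by `c ∘ h` to `C`, and the last integral is
  `π (g - 1)`, so the degree is at most `A (g - 1)`;
* for all `ε > 0` there is a number `A` such that for all holomorphic maps `f` from the unit disc to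
  `X` the density `ρ` of `f^* ω` satisfies `D ^ ε ρ z ≤ A / (1 - |z| ^ 2) ^ 2`, where `D ≤ 1` is the
  distance of `f z` from the union of the elliptic curves in `T`. -/
theorem Pool.Agent.Results.MP_308c18_ag.CurvesOverTori.result {n d m : ℕ} {ι ι' : Type}
    (F : ι → MvPolynomial (Fin (n + 1)) ℂ) (hF : ∀ i, IsForm (F i))
    (G : ι' → MvPolynomial (Fin (n + 1)) ℂ) (hG : ∀ j, IsForm (G j))
    (hS : BrodyHyp (Cone F ∩ Zeros G)) (Λ : Submodule ℤ (Fin m → ℂ)) [DiscreteTopology Λ]
    [IsZLattice ℝ Λ] (α : (Fin (n + 1) → ℂ) → (Fin m → ℂ) ⧸ Λ) (hα : HolToTorus (Cone F) Λ α)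
    (hfib : HypFibres (Cone F) α) {κ : Type} (k : κ → ℕ)
    (η : κ → (Fin (n + 1) → ℂ) → (Fin (n + 1) → ℂ) → (Fin (n + 1) → ℂ) → ℂ)
    (hη : TwoForms (Cone F) (Zeros G) d α k η) (H : (Fin m → ℂ) → (Fin m → ℂ) → ℂ)
    (hH : RiemannForm Λ H ∨ ∀ g, CurveIn (Cone F) g → Elliptic g → IsConst g) :
    ∃ T : Set (ℂ → ℙ ℂ (Fin (n + 1) → ℂ)), T.Finite ∧
      (∀ g ∈ T, CurveIn (Cone F) g ∧ Elliptic g ∧ OverLine α g) ∧
      (∀ f, CurveIn (Cone F) f → IsConst f ∨ Factors T f) ∧
      (∀ (N : ℕ) (c : (Fin (n + 1) → ℂ) → ℙ ℂ (Fin (N + 1) → ℂ)), HolToProj (Cone F) c →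
        (∀ g ∈ T, IsConst fun z => c (g z).rep) → ∃ A : ℝ, 0 < A ∧ ∀ f, DiscIn (Cone F) f →
        ∀ ρ, Density (Metric.ball 0 1) (fun z => c (f z).rep) ρ →
          (∀ z ∈ Metric.ball (0 : ℂ) 1, ρ z ≤ A / (1 - ‖z‖ ^ 2) ^ 2) ∧
          ∀ U ⊆ Metric.ball (0 : ℂ) 1, MeasurableSet U → ∫⁻ z in U, ENNReal.ofReal (ρ z) ≤
            ENNReal.ofReal A * ∫⁻ z in U, ENNReal.ofReal (1 / (1 - ‖z‖ ^ 2) ^ 2)) ∧
      (∀ ε : ℝ, 0 < ε → ∃ A : ℝ, 0 < A ∧ ∀ f, DiscIn (Cone F) f →
        ∀ ρ, Density (Metric.ball 0 1) f ρ → ∀ z ∈ Metric.ball (0 : ℂ) 1, ∀ D : ℝ, 0 ≤ D → D ≤ 1 →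
          (∀ g ∈ T, ∀ w, D ≤ projDist (f z) (g w)) → D ^ ε * ρ z ≤ A / (1 - ‖z‖ ^ 2) ^ 2) := by
  obtain ⟨T, h1, h2, h3, h4, h5⟩ := deg_geo hF hG hS hη hα hfib hH
  refine ⟨T, h1, h2, h3, fun N c hc hcT => ?_, h4⟩
  obtain ⟨A, hA, hA'⟩ := h5 N c hc hcT
  refine ⟨A, hA, fun f hf ρ hρ => ⟨hA' f hf ρ hρ, fun U hU hUm => ?_⟩⟩
  rw [← lintegral_const_mul' _ _ ENNReal.ofReal_ne_top]
  refine setLIntegral_mono_ae' hUm (Filter.Eventually.of_forall fun z hz => ?_)
  rw [← ENNReal.ofReal_mul hA.le]
  apply ENNReal.ofReal_le_ofReal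
  rw [mul_one_div]
  exact hA' f hf ρ hρ z (hU hz)
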