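import Pool.Agent.N126.RC.CanMain

/-!
MP_308c18_ag, Q1: the canonical degrees of the curves on all smooth surfaces (and on all smooth
varieties of any dimension `w`) which are finite coverings of arbitrary varieties, or of their complete
intersections with generic hypersurfaces, ramified over generic hypersurface sections.

Let `K` be an algebraically closed field of characteristic `0` (for example the complex numbers), and
let `k` be a field contained in `K`, with algebraic closure `k'` in `K`. Let `V` be a closed subset of
the projective `n`-space over `k'`, of dimension at most `m`, and let `F_a`, for `a` in a finite set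
`A`, be generic forms of degrees `d_a` (`Generic`: the ratios of their coefficients are algebraically
independent over `k`).

Let `X` be a closed subset of the weighted projective space over `K` with the coordinates
`x_0, …, x_n` of weight `1` and `u_v` of weight `e_v`, `v ∈ W`, with equations `G_i = 0`, such that

* `(x, u) ↦ x` is a finite morphism on `X` (`FiniteOver`), with image in `V` and in the hypersurfaces
  `F_a = 0`, `a ∈ C` (`Over`); `C` is a subset of `A`, for example empty;
* for the `a` not in `C`, this morphism is ramified of order at least `q_a ≥ 1` over `F_a = 0`
  (`RamifiedOver`: locally on `X`, the function `F_a` is in the `q_a`-th power of an ideal whose set of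
  zeros contains `{F_a = 0}`; if `X` is smooth, then this means that the inverse image of the divisor
  `F_a = 0` has multiplicity at least `q_a` at each of its components). It may have any other
  ramification.

Each projective variety with a finite morphism to `V` can be given in this way. Suppose that
`T = ∑_{a ∈ C} (d_a + 1) + ∑_{a ∉ C} d_a (1 - 1 / q_a) > 2 m`. Then there is a number `κ` such that
`K_X · f ≤ κ deg f` for all curves on `X` (`CanonicalBound`), and for all such numbers `κ ≥ 0`

`K_X · f ≤ (κ / (T - 2 m)) (2 g - 2)`

for all nonconstant maps `f` from smooth projective curves of genus `g` to `X`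
(`CanonicalGenusBound`). So for all smooth surfaces `X` as above the inequality in Q1 holds, with
`A = 2 κ / (T - 2 m)` and `B = 0`, for all curves on `X`, and `Λ_X ≤ 2 κ / (T - 2 m)`.

Here the curve has the function field `L`, and `f` is given by the coordinates `z` with
`z (inl c) = 1` for some `c`; the degree `pht` of `f` is the degree of the inverse image of the
hyperplane class of the projective `n`-space, whose inverse image on `X` is ample. The cone over `X` in
the affine space is smooth outside of `0`, if `X` is a smooth `w`-dimensional scheme; its tangent
bundle has the rank `w + 1`, and descends to an extension of the tangent bundle of `X` by a trivial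
line bundle, which is a subbundle of the direct sum of the line bundles `O(weight of s)`, where `s`
runs through the coordinates. So `K_X · f` is minus the degree of the determinant of this bundle, and
this is the number `canX`, for any basis `u` (over `L`) of the tangent space at `z` of the cone
(`TangentBasis`).
-/

set_option autoImplicit false

namespace Pool.Agent.Results.MP_308c18_ag.RamifiedSurfaces

open MvPolynomial Pool.Agent.N126.RC Pool.Agent.TH145.MG

theorem result {k K : Type} [Field k] [Field K] [IsAlgClosed K] [CharZero K] [Algebra k K]
    {n m : ℕ}
    -- a closed subset of projective space, of dimension at most `m`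
    (V : Set (MvPolynomial (Fin (n + 1)) (algebraicClosure k K)))
    (hVh : ∀ f ∈ V, ∃ e, f.IsHomogeneous e) (hV : DimLE (algebraicClosure k K) V m)
    -- generic forms
    {A : Type} [Fintype A] [DecidableEq A] (d : A → ℕ) (F : A → MvPolynomial (Fin (n + 1)) K)
    (hF : Generic k d F)
    -- the numerical condition
    (C : Finset A) (q : A → ℕ) (hq : ∀ a, a ∉ C → q a ≠ 0)
    (hd : (2 * m : ℚ) < ∑ a ∈ C, ((d a : ℚ) + 1) + ∑ a ∈ Cᶜ, (d a : ℚ) * (1 - 1 / q a))
    -- the projective variety `X = {G = 0}`, finite over `V ∩ ⋂ {F a = 0}`, `a ∈ C`, and ramified
    {W ι : Type} [Fintype W] [Finite ι] (e : W → ℕ) (G : ι → MvPolynomial (Fin (n + 1) ⊕ W) K)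
    (hG : ∀ i, ∃ c, (G i).IsWeightedHomogeneous (wts e) c) (hfin : FiniteOver G)
    (hov : Over V F C G) (hram : ∀ a, a ∉ C → RamifiedOver G (F a) (q a))
    -- the dimension of `X` (for surfaces `2`)
    (w : ℕ) :
    (∃ κ : ℕ, CanonicalBound e G w κ) ∧
      ∀ κ : ℚ, 0 ≤ κ → CanonicalBound e G w κ → CanonicalGenusBound e G w
        (κ / (∑ a ∈ C, ((d a : ℚ) + 1) + ∑ a ∈ Cᶜ, (d a : ℚ) * (1 - 1 / q a) - 2 * m)) :=
  ⟨exists_canonicalBound e G hG hfin w, fun κ hκ0 hκ =>
    canonical_genus V hVh hV F hF C hq hd e G hG hfin hov hram w κ hκ0 hκ⟩

end Pool.Agent.Results.MP_308c18_ag.RamifiedSurfaces
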