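import Pool.Agent.N95.TD.Exc

/-!
MP_308c18_ag, Q1: the canonical degrees of the curves on the smooth surfaces (and on the smooth
varieties of any dimension) which have generically finite rational maps to the symmetric powers of
generic complete intersections.

Let `K` be an algebraically closed field of characteristic `0` (for example the complex numbers), and
let `k` be a subfield. `GenericCI k K` is a complete intersection `X` in a projective space, generic over
`k` (`Pool/Agent/N111/GI/Maps.lean`): the intersection of a closed subset `V`, defined over the algebraic
closure of `k` in `K`, of dimension at most `m`, and of hypersurfaces `F a = 0` of degrees `d a`, where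
the ratios of the coefficients of `F a` to one of them are, for all `a` together, algebraically
independent over `k`. Let `S` be the sum of the numbers `d a + 1`, and `S ≥ 2 m + max (r, 2)`.

Let `M₀` be any projective variety over `K` with a rational map `φ` to the symmetric power `Sym^r X`,
which is generically finite onto its image. Here `L` is the function field of `M₀`, and `v` its generic
point in homogeneous coordinates: the ratios of the `v i` generate `L`. The rational map `φ` (`SymMap`,
in `Pool/Agent/N95/RF/Sym.lean`) is a cycle of `r` points of `X` with coordinates in the algebraic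
closure of `L` which is stable under the automorphisms over `L`; `φ.values` are the ratios of the
coordinates of these points, and `φ` is generically finite onto its image if `L` is algebraic over them.

Let `M` be a projective variety with a finite morphism to `M₀` (for example `M = M₀`): a closed subset
`{G = 0}` of the weighted projective space with the coordinates `x_0, …, x_N` of weight `1` and `u_v` of
weight `e_v`, `v ∈ W`, such that `(x, u) ↦ x` is a finite morphism on `M` (`FiniteOver`), with image
in `M₀`: all forms `H` with `H(v) = 0` vanish at the points of the image. If `W` is empty then `M` is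
`M₀` (or a closed subset of `M₀`).

**Theorem.** (1) Let `M = M₀` be a surface. Then there are constants `A` and `B` such that
`K_M · C ≤ A max (2 g(C) - 2, 0) + B` for all curves `C` on `M`, where `g(C)` is the geometric genus. So
Q1 holds for `M`.

(2) In general, let `S ≥ 2 m + q r`. Then there are a form `g` which does not vanish on `M₀`, and a
constant `A`, such that `K_M · f ≤ A (2 g(C) - 2)` for all smooth projective curves `C`, all coverings
`C' → C` of degree at most `q` by smooth projective curves `C'`, and all nonconstant maps `f` from `C'`
to `M` whose image does not lie over the proper closed subset `{g = 0}` of `M₀` (`CanonicalCoverBound`,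
in `Pool/Agent/N95/TD/Can.lean`).

(3) If `M₀` is replaced by a projective set `{Φ = 0}` which is finite over `Sym^r X` (`SymCor Φ X r`, in
`Pool/Agent/N95/RF/Cor.lean`: there is a closed subset `Γ` of `{Φ = 0} × X` such that, for all points `z`
of `{Φ = 0}` over all algebraically closed extensions `Ω` of `K`, the set `Γ_z` of the points `x` of `X`
with `(z, x)` in `Γ` has at least one and at most `r` elements, and `z` is defined over each
algebraically closed field between `K` and `Ω` over which all points in `Γ_z` are defined), then (2)
holds with `g = 1`, for all nonconstant maps `f`. So (`q = 1`) the inequality in Q1 holds with `B = 0` for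
all smooth projective surfaces which are finite over `Sym^r X`.

A map `f` from a smooth projective curve, with function field `E`, to `M` is given by the coordinates
`z` with `z (inl c) = 1` for some `c`. In (1), the curve `C` is the image of a map which is birational
onto its image: the coordinates `z` generate `E` (`CanonicalDegreeBound`, in
`Pool/Agent/N95/TD/Exc.lean`). The cone over `M` in the affine space is smooth outside of `0`, if `M` is
a smooth `w`-dimensional scheme; its tangent bundle has the rank `w + 1`, and descends to an extension
of the tangent bundle of `M` by a trivial line bundle, which is a subbundle of the direct sum of the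
line bundles `O(weight of s)`, where `s` runs through the coordinates. So `K_M · f` is minus the degree
of the determinant of this bundle, and this is the number `canX` (`Pool/Agent/N126/RC/CanDef.lean`), for
any basis `u` (over `E`) of the tangent space at `z` of the cone (`TangentBasis`).

The proof of (1): by (2) it remains to bound the degrees of the curves in `{g = 0}`. The ideals of these
curves, in each affine chart, are minimal over the ideal of `{g = 0}`, as the surface has dimension two.

The definitions for the canonical degrees, and the bound `K_M · f ≤ κ deg f`, are from
MP_308c18_ag.RamifiedSurfaces by helper126.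
-/

set_option autoImplicit false
set_option linter.overlappingInstances false

namespace Pool.Agent.Results.MP_308c18_ag.SymmetricPowerSurfaces

open MvPolynomial Pool.Agent.N126.RC
open Pool.Agent.N111.GI (GenericCI)
open Pool.Agent.W602.GT (coords val IsForm)
open Pool.Agent.N95.RF (SymMap SymCor)
open Pool.Agent.N95.TD (CanonicalCoverBound CanonicalDegreeBound)

/-- **Canonical degrees of curves on the surfaces, and varieties, over symmetric powers.** -/
theorem result {k K : Type} [Field k] [Field K] [IsAlgClosed K] [CharZero K] [Algebra k K]
    -- the generic complete intersection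
    {X : GenericCI k K} {r : ℕ} (h1 : 2 * X.m + r ≤ ∑ a, (X.d a + 1))
    (h2 : 2 * X.m + 2 ≤ ∑ a, (X.d a + 1))
    -- the projective variety `M = {G = 0}`, with the finite morphism `(x, u) ↦ x`
    {N : ℕ} {W ι : Type} [Fintype W] [Finite ι] (e : W → ℕ)
    (G : ι → MvPolynomial (Fin (N + 1) ⊕ W) K)
    (hG : ∀ i, ∃ c, (G i).IsWeightedHomogeneous (wts e) c) (hfin : FiniteOver G)
    -- the dimension of `M` (for surfaces `2`)
    (w : ℕ) :
    -- `M₀` with a generically finite rational map to `Sym^r X`
    (∀ (L : Type) [Field L] [Algebra K L] (v : Fin (N + 1) → L), v ≠ 0 → coords K v = ⊤ →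
      ∀ φ : SymMap k K L X r, (∀ t : L, IsAlgebraic (IntermediateField.adjoin K φ.values)
        (algebraMap L (AlgebraicClosure L) t)) →
      (∀ z : Fin (N + 1) ⊕ W → K, (∀ i, eval z (G i) = 0) →
        ∀ H : MvPolynomial (Fin (N + 1)) K, IsForm H → val v H = 0 →
          eval (fun j => z (Sum.inl j)) H = 0) →
      -- (1) surfaces
      (IsEmpty W → Algebra.trdeg K L = 2 → ∃ A B : ℕ, CanonicalDegreeBound e G w A B) ∧
      -- (2) any dimension
      ∀ q : ℕ, 2 * X.m + q * r ≤ ∑ a, (X.d a + 1) →
        ∃ g : MvPolynomial (Fin (N + 1)) K, IsForm g ∧ val v g ≠ 0 ∧
          ∃ A : ℕ, CanonicalCoverBound e G w q g A) ∧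
    -- (3) `{Φ = 0}` finite over `Sym^r X`
    ∀ Φ : Set (MvPolynomial (Fin (N + 1)) K), (∀ f ∈ Φ, ∃ c, f.IsHomogeneous c) → SymCor Φ X r →
      (∀ z : Fin (N + 1) ⊕ W → K, (∀ i, eval z (G i) = 0) →
        ∀ H ∈ Φ, eval (fun j => z (Sum.inl j)) H = 0) →
      ∀ q : ℕ, 2 * X.m + q * r ≤ ∑ a, (X.d a + 1) → ∃ A : ℕ, CanonicalCoverBound e G w q 1 A :=
  ⟨fun _ _ _ _ hv hv' φ hφ hov => ⟨fun _ hL => Pool.Agent.N95.TD.surface_bound hL hv hv' φ
    (fun t => Pool.Agent.N111.FT.mem_aclo.2 (hφ t)) h1 h2 e G hG hov w,
      fun _ hq => Pool.Agent.N95.TD.can_gen hv hv' φ
        (fun t => Pool.Agent.N111.FT.mem_aclo.2 (hφ t)) hq h2 e G hG hfin hov w⟩,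
  fun _ hΦ C hov _ hq => Pool.Agent.N95.TD.can_fin hΦ C hq h2 e G hG hfin hov w⟩

end Pool.Agent.Results.MP_308c18_ag.SymmetricPowerSurfaces
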